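import Mathlib

set_option autoImplicit false

open Set Metric Topology Filter

namespace Pool.Agent.Results.MP_462cdc_an.NotStrictlyConvex

/-- The set of nearest points of `x` in `G`. -/
def nearestPoints {E : Type*} [NormedAddCommGroup E] (G : Set E) (x : E) : Set E :=
  {g | g ∈ G ∧ ‖x - g‖ = sInf ((fun h => ‖x - h‖) '' G)}

/-- The set of all `x` with at most one nearest point in `G`. -/
def uniqSet {E : Type*} [NormedAddCommGroup E] (G : Set E) : Set E :=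
  {x | (nearestPoints G x).Subsingleton}

section general

variable {E : Type*} [NormedAddCommGroup E]

theorem sInf_eq_infDist (G : Set E) (x : E) :
    sInf ((fun h => ‖x - h‖) '' G) = infDist x G := by
  rw [infDist_eq_iInf, ← sInf_image' (f := fun h => dist x h)]
  simp [dist_eq_norm]

theorem mem_nearest_iff {G : Set E} {x g : E} :
    g ∈ nearestPoints G x ↔ g ∈ G ∧ ‖x - g‖ = infDist x G := by
  constructor
  · rintro ⟨h1, h2⟩
    exact ⟨h1, by rw [h2, sInf_eq_infDist]⟩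
  · rintro ⟨h1, h2⟩
    exact ⟨h1, by rw [h2, sInf_eq_infDist]⟩

theorem isGδ_uniqSet {G : Set E} (hG : IsCompact G) : IsGδ (uniqSet G) := by
  have hcl : ∀ n : ℕ, IsClosed {x : E | ∃ g ∈ G, ∃ g' ∈ G, ‖x - g‖ = infDist x G ∧
      ‖x - g'‖ = infDist x G ∧ 1 / ((n : ℝ) + 1) ≤ dist g g'} := by
    intro n
    have hK : IsCompact (G ×ˢ G) := hG.prod hG
    have hC : IsClosed {p : E × (E × E) | ‖p.1 - p.2.1‖ = infDist p.1 G ∧
        ‖p.1 - p.2.2‖ = infDist p.1 G ∧ 1 / ((n : ℝ) + 1) ≤ dist p.2.1 p.2.2} := by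
      have hI : Continuous fun p : E × (E × E) => infDist p.1 G :=
        (continuous_infDist_pt G).comp continuous_fst
      have e1 : IsClosed {p : E × (E × E) | ‖p.1 - p.2.1‖ = infDist p.1 G} :=
        isClosed_eq (by fun_prop) hI
      have e2 : IsClosed {p : E × (E × E) | ‖p.1 - p.2.2‖ = infDist p.1 G} :=
        isClosed_eq (by fun_prop) hI
      have e3 : IsClosed {p : E × (E × E) | 1 / ((n : ℝ) + 1) ≤ dist p.2.1 p.2.2} :=
        isClosed_le (by fun_prop) (by fun_prop)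
      exact e1.inter (e2.inter e3)
    rw [← isSeqClosed_iff_isClosed]
    intro x y hx hxy
    choose g hg g' hg' h1 h2 h3 using hx
    obtain ⟨q, hq, φ, hφ, hlim⟩ := hK.tendsto_subseq (x := fun k => (g k, g' k))
      (fun k => ⟨hg k, hg' k⟩)
    have hlim2 : Tendsto (fun k => (x (φ k), (g (φ k), g' (φ k)))) atTop (𝓝 (y, q)) :=
      (hxy.comp hφ.tendsto_atTop).prodMk_nhds hlim
    have := hC.mem_of_tendsto hlim2 (Eventually.of_forall fun k => ⟨h1 _, h2 _, h3 _⟩)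
    exact ⟨q.1, hq.1, q.2, hq.2, this.1, this.2.1, this.2.2⟩
  have heq : uniqSet G = ⋂ n : ℕ, {x : E | ∃ g ∈ G, ∃ g' ∈ G, ‖x - g‖ = infDist x G ∧
      ‖x - g'‖ = infDist x G ∧ 1 / ((n : ℝ) + 1) ≤ dist g g'}ᶜ := by
    ext x
    simp only [mem_iInter, mem_compl_iff, mem_ofPred_eq, uniqSet]
    constructor
    · rintro hx n ⟨g, hg, g', hg', h1, h2, h3⟩
      have := hx (mem_nearest_iff.2 ⟨hg, h1⟩) (mem_nearest_iff.2 ⟨hg', h2⟩)
      rw [this, dist_self] at h3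
      have : (0 : ℝ) < 1 / ((n : ℝ) + 1) := by positivity
      linarith
    · intro hx g hg g' hg'
      by_contra hne
      obtain ⟨n, hn⟩ := exists_nat_one_div_lt (dist_pos.2 hne)
      rw [mem_nearest_iff] at hg hg'
      exact hx n ⟨g, hg.1, g', hg'.1, hg.2, hg'.2, hn.le⟩
  rw [heq]
  exact IsGδ.iInter_of_isOpen fun n => (hcl n).isOpen_compl

theorem not_isMeagre_uniqSet [CompleteSpace E] {G : Set E} (hG : IsCompact G)
    (hd : Dense (uniqSet G)) : ¬ IsMeagre (uniqSet G) :=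
  not_isMeagre_of_isGδ_of_dense (isGδ_uniqSet hG) hd

end general

section example_space

/-- The subspace of the `ℓ¹`-sum of two copies of `H` formed by the pairs `(a, b)` with
`a - b` in the line through `e`. -/
def pairSpace (𝕜 : Type*) [RCLike 𝕜] {H : Type*} [NormedAddCommGroup H]
    [InnerProductSpace 𝕜 H] (e : H) : Submodule 𝕜 (WithLp 1 (H × H)) :=
  (Submodule.span 𝕜 {e}).comap (WithLp.fstₗ 1 𝕜 H H - WithLp.sndₗ 1 𝕜 H H)

variable (𝕜 : Type*) [RCLike 𝕜] {H : Type*} [NormedAddCommGroup H] [InnerProductSpace 𝕜 H]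

theorem mem_pairSpace {e : H} {x : WithLp 1 (H × H)} :
    x ∈ pairSpace 𝕜 e ↔ x.fst - x.snd ∈ Submodule.span 𝕜 {e} := Iff.rfl

include 𝕜 in
theorem continuous_fst' : Continuous (fun x : WithLp 1 (H × H) => x.fst) :=
  (WithLp.fstL 1 𝕜 H H).continuous

include 𝕜 in
theorem continuous_snd' : Continuous (fun x : WithLp 1 (H × H) => x.snd) :=
  (WithLp.sndL 1 𝕜 H H).continuous

theorem isClosed_pairSpace (e : H) : IsClosed (pairSpace 𝕜 e : Set (WithLp 1 (H × H))) := by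
  have h : IsClosed (Submodule.span 𝕜 {e} : Set H) := Submodule.closed_of_finiteDimensional _
  exact h.preimage ((continuous_fst' 𝕜).sub (continuous_snd' 𝕜))

/-- the equality case of the triangle inequality in an inner product space -/
theorem eq_case {a b : H} (h : ‖a + b‖ = ‖a‖ + ‖b‖) : (‖b‖ : 𝕜) • a = (‖a‖ : 𝕜) • b := by
  have h1 : RCLike.re (inner 𝕜 a b) = ‖a‖ * ‖b‖ := by
    have := norm_add_sq (𝕜 := 𝕜) a b
    rw [h] at this
    nlinarith
  have h2 : ‖inner 𝕜 a b‖ ≤ ‖a‖ * ‖b‖ := norm_inner_le_norm a b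
  rw [← inner_eq_norm_mul_iff]
  have h4 : (inner 𝕜 a b : 𝕜) = (‖inner 𝕜 a b‖ : 𝕜) := by
    rw [← RCLike.norm_le_re_iff_eq_norm, h1]
    exact h2
  have h5 : ‖inner 𝕜 a b‖ = ‖a‖ * ‖b‖ := by
    have := congrArg RCLike.re h4
    rw [RCLike.ofReal_re, h1] at this
    exact this.symm
  rw [h4, h5]
  push_cast
  rfl

/-- In `pairSpace`, if the triangle inequality for `u, v` is an equality then `u` has its
coordinates on the line through `e`, or `‖v‖ u = ‖u‖ v`. -/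
theorem pair_eq_case {e : H} {u v : WithLp 1 (H × H)} (hu : u ∈ pairSpace 𝕜 e)
    (hv : v ∈ pairSpace 𝕜 e) (h : ‖u + v‖ = ‖u‖ + ‖v‖) :
    u.fst ∈ Submodule.span 𝕜 {e} ∨ (‖v‖ : 𝕜) • u = (‖u‖ : 𝕜) • v := by
  have n1 := WithLp.prod_norm_eq_of_L1 u
  have n2 := WithLp.prod_norm_eq_of_L1 v
  have n3 := WithLp.prod_norm_eq_of_L1 (u + v)
  rw [WithLp.add_fst, WithLp.add_snd] at n3
  have t1 := norm_add_le u.fst v.fst
  have t2 := norm_add_le u.snd v.snd
  have q1 : ‖u.fst + v.fst‖ = ‖u.fst‖ + ‖v.fst‖ := by linarith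
  have q2 : ‖u.snd + v.snd‖ = ‖u.snd‖ + ‖v.snd‖ := by linarith
  have r1 := eq_case 𝕜 q1
  have r2 := eq_case 𝕜 q2
  rw [mem_pairSpace] at hu hv
  set S := Submodule.span 𝕜 {e} with hS
  set a := u.fst
  set b := u.snd
  set c := v.fst
  set d := v.snd
  by_cases ha : a ∈ S
  · exact Or.inl ha
  right
  have ha0 : a ≠ 0 := fun h0 => ha (h0 ▸ S.zero_mem)
  have hb : b ∉ S := fun hb => ha (by simpa using S.add_mem hu hb)
  have hb0 : b ≠ 0 := fun h0 => hb (h0 ▸ S.zero_mem)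
  have hna : ‖a‖ ≠ 0 := norm_ne_zero_iff.2 ha0
  have hnb : ‖b‖ ≠ 0 := norm_ne_zero_iff.2 hb0
  -- `c = (‖c‖/‖a‖) a`, `d = (‖d‖/‖b‖) b`
  have hc : c = ((‖c‖ / ‖a‖ : ℝ) : 𝕜) • a := by
    have : (‖a‖ : 𝕜) ≠ 0 := by exact_mod_cast hna
    push_cast
    rw [div_eq_inv_mul, mul_smul, r1, smul_smul, inv_mul_cancel₀ this, one_smul]
  have hd : d = ((‖d‖ / ‖b‖ : ℝ) : 𝕜) • b := by
    have : (‖b‖ : 𝕜) ≠ 0 := by exact_mod_cast hnb
    push_cast
    rw [div_eq_inv_mul, mul_smul, r2, smul_smul, inv_mul_cancel₀ this, one_smul]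
  have hlm : ‖c‖ / ‖a‖ = ‖d‖ / ‖b‖ := by
    by_contra hne
    apply ha
    set l : ℝ := ‖c‖ / ‖a‖
    set m : ℝ := ‖d‖ / ‖b‖
    have hlm' : (((l - m : ℝ)) : 𝕜) ≠ 0 := by
      exact_mod_cast sub_ne_zero.2 hne
    have key : ((l - m : ℝ) : 𝕜) • a ∈ S := by
      have : ((l - m : ℝ) : 𝕜) • a = (c - d) - (m : 𝕜) • (a - b) := by
        rw [hc, hd]
        push_cast
        module
      rw [this]
      exact S.sub_mem hv (S.smul_mem _ hu)
    exact (S.smul_mem_iff hlm').1 key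
  have hcn : ‖c‖ = (‖d‖ / ‖b‖) * ‖a‖ := by
    rw [← hlm]; field_simp
  have hdn : ‖d‖ = (‖d‖ / ‖b‖) * ‖b‖ := by
    field_simp
  have hv' : v = ((‖d‖ / ‖b‖ : ℝ) : 𝕜) • u := by
    apply (WithLp.equiv 1 (H × H)).injective
    apply Prod.ext
    · exact hc.trans (by rw [hlm]; rfl)
    · exact hd
  have hvn : ‖v‖ = (‖d‖ / ‖b‖) * ‖u‖ := by
    rw [n2, n1, mul_add, ← hcn, ← hdn]
  rw [hvn]
  conv_rhs => rw [hv']
  rw [smul_smul]
  push_cast
  ring_nf

/-- If an open set `V` misses `uniqSet G`, then `V ⊆ G + Y`, where `Y` is a subspace that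
contains all directions of non-strict convexity. -/
theorem sub_mem_of_forall_notMem {E : Type*} [NormedAddCommGroup E] [NormedSpace 𝕜 E]
    (Y : Submodule 𝕜 E)
    (hY : ∀ u v : E, ‖u + v‖ = ‖u‖ + ‖v‖ → u ∈ Y ∨ (‖v‖ : 𝕜) • u = (‖u‖ : 𝕜) • v)
    {G V : Set E} (hV : IsOpen V) (hVG : ∀ x ∈ V, x ∉ uniqSet G) :
    ∀ x ∈ V, ∃ g ∈ G, x - g ∈ Y := by
  intro x hx
  have h1 := hVG x hx
  have h1' : ∃ g ∈ nearestPoints G x, ∃ g1 ∈ nearestPoints G x, g ≠ g1 := by
    by_contra hcon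
    push Not at hcon
    exact h1 fun a ha b hb => hcon a ha b hb
  obtain ⟨g, hg, g1, hg1, hne⟩ := h1'
  rw [mem_nearest_iff] at hg hg1
  refine ⟨g, hg.1, ?_⟩
  set r := infDist x G with hr
  have hr0 : 0 < r := by
    refine lt_of_le_of_ne infDist_nonneg ?_
    intro h0
    rw [← h0] at hg hg1
    have e1 := norm_eq_zero.1 hg.2
    have e2 := norm_eq_zero.1 hg1.2
    exact hne ((sub_eq_zero.1 e1).symm.trans (sub_eq_zero.1 e2))
  obtain ⟨ε, hε, hball⟩ := Metric.isOpen_iff.1 hV x hx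
  obtain ⟨t, ht0, ht1, htε⟩ : ∃ t : ℝ, 0 < t ∧ t < 1 ∧ t * r < ε := by
    refine ⟨min (1 / 2) (ε / (2 * r)), by positivity, ?_, ?_⟩
    · exact lt_of_le_of_lt (min_le_left _ _) (by norm_num)
    · calc min (1 / 2) (ε / (2 * r)) * r ≤ ε / (2 * r) * r :=
            mul_le_mul_of_nonneg_right (min_le_right _ _) hr0.le
        _ = ε / 2 := by field_simp
        _ < ε := by linarith
  have ht𝕜 : (t : 𝕜) ≠ 0 := by exact_mod_cast ht0.ne'
  have hr𝕜 : (r : 𝕜) ≠ 0 := by exact_mod_cast hr0.ne'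
  set x' := x - (t : 𝕜) • (x - g) with hx'
  have hu : x - x' = (t : 𝕜) • (x - g) := by rw [hx']; abel
  have hun : ‖x - x'‖ = t * r := by
    rw [hu, norm_smul, hg.2, RCLike.norm_ofReal, abs_of_pos ht0]
  have hx'g : x' - g = ((1 - t : ℝ) : 𝕜) • (x - g) := by
    rw [hx']; push_cast; module
  have hx'gn : ‖x' - g‖ = (1 - t) * r := by
    rw [hx'g, norm_smul, hg.2, RCLike.norm_ofReal, abs_of_pos (by linarith)]
  have hx'V : x' ∈ V := hball (by rw [mem_ball', dist_eq_norm, hun]; exact htε)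
  have h2 := hVG x' hx'V
  have h2' : ∃ g' ∈ nearestPoints G x', g' ≠ g := by
    by_contra hcon
    push Not at hcon
    exact h2 fun a ha b hb => (hcon a ha).trans (hcon b hb).symm
  obtain ⟨g', hg', hne'⟩ := h2'
  rw [mem_nearest_iff] at hg'
  have a1 : ‖x' - g'‖ ≤ (1 - t) * r := by
    rw [hg'.2, ← hx'gn, ← dist_eq_norm]
    exact infDist_le_dist_of_mem hg.1
  have a2 : r ≤ ‖x - g'‖ := by
    rw [← dist_eq_norm]
    exact infDist_le_dist_of_mem hg'.1
  have a3 : ‖x - g'‖ ≤ ‖x - x'‖ + ‖x' - g'‖ := norm_sub_le_norm_sub_add_norm_sub _ _ _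
  have a4 : ‖x' - g'‖ = (1 - t) * r := by linarith
  have hsum : (x - x') + (x' - g') = x - g' := by abel
  rcases hY (x - x') (x' - g') (by rw [hsum]; linarith) with h | h
  · rw [hu] at h
    exact (Y.smul_mem_iff ht𝕜).1 h
  · exfalso
    apply hne'
    rw [hun, a4, hu] at h
    have h3 : x' - g' = x' - g := by
      rw [hx'g]
      have h4 : ((t * r : ℝ) : 𝕜) • (x' - g') =
          ((t * r : ℝ) : 𝕜) • (((1 - t : ℝ) : 𝕜) • (x - g)) := by
        rw [← h, smul_smul, smul_smul]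
        congr 1
        push_cast
        ring
      have h5 : ((t * r : ℝ) : 𝕜) ≠ 0 := by
        exact_mod_cast (mul_pos ht0 hr0).ne'
      exact (smul_right_injective E h5) h4
    exact sub_right_injective h3

/-- density of the uniqueness set in `pairSpace` -/
theorem dense_uniqSet {e : H} (he : e ≠ 0) (hH : ¬ FiniteDimensional 𝕜 H) {G : Set (pairSpace 𝕜 e)}
    (hG : IsCompact G) : Dense (uniqSet G) := by
  rw [dense_iff_inter_open]
  intro V hV hVne
  by_contra hcon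
  have hVG : ∀ x ∈ V, x ∉ uniqSet G := fun x hx hx2 => hcon ⟨x, hx, hx2⟩
  set Y : Submodule 𝕜 (pairSpace 𝕜 e) := (Submodule.span 𝕜 {e}).comap
    ((WithLp.fstₗ 1 𝕜 H H).comp (pairSpace 𝕜 e).subtype) with hYdef
  have key := sub_mem_of_forall_notMem 𝕜 Y (fun u v huv => by
    rcases pair_eq_case 𝕜 u.2 v.2 (by simpa using huv) with h | h
    · exact Or.inl h
    · exact Or.inr (Subtype.ext (by simpa using h))) hV hVG
  obtain ⟨x, hx⟩ := hVne
  obtain ⟨ε, hε, hball⟩ := Metric.isOpen_iff.1 hV x hx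
  set δ := ε / 4 with hδ
  have hδ0 : 0 < δ := by positivity
  -- the diagonal embedding
  have hdiag : ∀ h : H, (WithLp.toLp 1 (h, h) : WithLp 1 (H × H)) ∈ pairSpace 𝕜 e := by
    intro h
    rw [mem_pairSpace]
    simp
  have h1 : ∀ h : H, ‖h‖ ≤ δ → ∃ g ∈ G, ∃ c : 𝕜, h = (g : WithLp 1 (H × H)).fst -
      (x : WithLp 1 (H × H)).fst + c • e := by
    intro h hh
    have hm : x + ⟨_, hdiag h⟩ ∈ V := by
      apply hball
      rw [mem_ball, dist_eq_norm, add_sub_cancel_left]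
      show ‖(WithLp.toLp 1 (h, h) : WithLp 1 (H × H))‖ < ε
      rw [WithLp.prod_norm_eq_of_L1]
      simp only [WithLp.toLp_fst, WithLp.toLp_snd]
      linarith
    obtain ⟨g, hg, hgY⟩ := key _ hm
    obtain ⟨c, hc⟩ := Submodule.mem_span_singleton.1 (show
      ((x : WithLp 1 (H × H)).fst + h) - (g : WithLp 1 (H × H)).fst ∈ Submodule.span 𝕜 {e} from hgY)
    exact ⟨g, hg, c, by rw [hc]; abel⟩
  have hcont : Continuous fun g : pairSpace 𝕜 e => (g : WithLp 1 (H × H)).fst :=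
    (continuous_fst' 𝕜).comp continuous_subtype_val
  -- bound for the coefficients
  obtain ⟨R, hR⟩ : ∃ R : ℝ, ∀ g ∈ G, ‖(g : WithLp 1 (H × H)).fst‖ ≤ R := by
    obtain ⟨R, hR⟩ := hG.exists_bound_of_continuousOn hcont.continuousOn
    exact ⟨R, hR⟩
  apply hH
  have he0 : 0 < ‖e‖ := norm_pos_iff.2 he
  set M := (δ + R + ‖(x : WithLp 1 (H × H)).fst‖) / ‖e‖ with hM
  have hK : IsCompact ((fun p : pairSpace 𝕜 e × 𝕜 => (p.1 : WithLp 1 (H × H)).fst -
    (x : WithLp 1 (H × H)).fst + p.2 • e) '' (G ×ˢ closedBall (0 : 𝕜) M)) :=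
    (hG.prod (isCompact_closedBall _ _)).image
      (((hcont.comp continuous_fst).sub continuous_const).add
        (continuous_snd.smul continuous_const))
  have hsub : closedBall (0 : H) δ ⊆ ((fun p : pairSpace 𝕜 e × 𝕜 =>
    (p.1 : WithLp 1 (H × H)).fst - (x : WithLp 1 (H × H)).fst + p.2 • e) ''
      (G ×ˢ closedBall (0 : 𝕜) M)) := by
    intro h hh
    rw [mem_closedBall_zero_iff] at hh
    obtain ⟨g, hg, c, hc⟩ := h1 h hh
    refine ⟨(g, c), ⟨hg, ?_⟩, hc.symm⟩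
    rw [mem_closedBall_zero_iff, hM, le_div_iff₀ he0, ← norm_smul]
    have : c • e = h - (g : WithLp 1 (H × H)).fst + (x : WithLp 1 (H × H)).fst := by
      rw [hc]; abel
    rw [this]
    have b1 := hR g hg
    have b2 := norm_add_le (h - (g : WithLp 1 (H × H)).fst) (x : WithLp 1 (H × H)).fst
    have b3 := norm_sub_le h (g : WithLp 1 (H × H)).fst
    linarith
  exact FiniteDimensional.of_isCompact_closedBall 𝕜 hδ0
    (hK.of_isClosed_subset isClosed_closedBall hsub)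

theorem not_strictConvex {e : H} (he : ‖e‖ = 1) :
    ∃ x y : pairSpace 𝕜 e, ‖x‖ = 1 ∧ ‖y‖ = 1 ∧ x ≠ y ∧ ‖(1 / 2 : 𝕜) • (x + y)‖ = 1 := by
  have m1 : (WithLp.toLp 1 (e, (0 : H)) : WithLp 1 (H × H)) ∈ pairSpace 𝕜 e := by
    rw [mem_pairSpace]
    simp
  have m2 : (WithLp.toLp 1 ((0 : H), e) : WithLp 1 (H × H)) ∈ pairSpace 𝕜 e := by
    rw [mem_pairSpace]
    simp
  refine ⟨⟨_, m1⟩, ⟨_, m2⟩, ?_, ?_, ?_, ?_⟩
  · show ‖(WithLp.toLp 1 (e, (0 : H)) : WithLp 1 (H × H))‖ = 1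
    rw [WithLp.prod_norm_eq_of_L1]
    simp [he]
  · show ‖(WithLp.toLp 1 ((0 : H), e) : WithLp 1 (H × H))‖ = 1
    rw [WithLp.prod_norm_eq_of_L1]
    simp [he]
  · intro h
    have h2 : e = 0 := congrArg (fun z : pairSpace 𝕜 e => (z : WithLp 1 (H × H)).fst) h
    rw [h2] at he
    simp at he
  · show ‖(1 / 2 : 𝕜) • ((WithLp.toLp 1 (e, (0 : H)) : WithLp 1 (H × H)) +
      WithLp.toLp 1 ((0 : H), e))‖ = 1
    rw [norm_smul, WithLp.prod_norm_eq_of_L1]
    simp [he]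
    norm_num

end example_space

theorem infinite_dim_l2 (𝕜 : Type*) [RCLike 𝕜] :
    ¬ FiniteDimensional 𝕜 (lp (fun _ : ℕ => 𝕜) 2) := by
  intro h
  have ho : Orthonormal 𝕜 (fun n : ℕ => (lp.single 2 n (1 : 𝕜) : lp (fun _ : ℕ => 𝕜) 2)) := by
    rw [orthonormal_iff_ite]
    intro i j
    rw [lp.inner_single_left]
    by_cases hij : i = j
    · subst hij; simp
    · simp [hij]
  exact Module.Finite.not_linearIndependent_of_infinite _ ho.linearIndependent

/-- There is a Banach space `E` (over `ℝ` and over `ℂ`) that is not strictly convex, such that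
for every compact `G ⊆ E` the set of points with at most one nearest point in `G` is dense and
non-meagre in `E`. -/
theorem result (𝕜 : Type) [RCLike 𝕜] :
    ∃ (E : Type) (_ : NormedAddCommGroup E) (_ : NormedSpace 𝕜 E) (_ : CompleteSpace E),
      (¬ ∀ x y : E, ‖x‖ = 1 → ‖y‖ = 1 → x ≠ y → ‖(1 / 2 : 𝕜) • (x + y)‖ < 1) ∧
      ∀ G : Set E, IsCompact G →
        Dense (uniqSet G) ∧ IsGδ (uniqSet G) ∧ ¬ IsMeagre (uniqSet G) := by
  set H := lp (fun _ : ℕ => 𝕜) 2 with hHdef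
  set e : H := lp.single 2 0 (1 : 𝕜) with he
  have hen : ‖e‖ = 1 := by
    rw [he, lp.norm_single (by norm_num)]
    simp
  have hc : CompleteSpace (pairSpace 𝕜 e) := (isClosed_pairSpace 𝕜 e).completeSpace_coe
  refine ⟨pairSpace 𝕜 e, inferInstance, inferInstance, hc, ?_, ?_⟩
  · intro hcon
    obtain ⟨x, y, hx, hy, hxy, hm⟩ := not_strictConvex 𝕜 hen
    exact (hcon x y hx hy hxy).ne hm
  · intro G hG
    have he0 : e ≠ 0 := by
      intro h0
      rw [h0] at hen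
      simp at hen
    have h1 := dense_uniqSet 𝕜 he0 (infinite_dim_l2 𝕜) hG
    exact ⟨h1, isGδ_uniqSet hG, not_isMeagre_uniqSet hG h1⟩

end Pool.Agent.Results.MP_462cdc_an.NotStrictlyConvex
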